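import Pool.Agent.H856.KA.Last

/-!
# The angles of all Kloosterman sums, together with `π`, are linearly independent over the rational
# numbers; joint equidistribution over the extensions

For a prime `p` and a residue `a` modulo `p`, different from zero, let `θ_p(a)` be the angle in `[0, π]`
with `S(a, 1; p) = 2 √p cos θ_p(a)`. Katz's question is about the distribution of `θ_p(a)` for a fixed
integer `a` and varying `p`.

**Theorem.**

1. `S(a, 1; p) = 2 √p cos θ_p(a)` (Weil).
2. The numbers `π` and `θ_p(a)`, for all primes `p` and all residues `a ≠ 0` modulo `p`, are linearly
   independent over `ℚ`. In particular, all these angles are different, also for different primes.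
3. The same is true for all finite fields: let `q_p` be a power of `p`, for every prime `p`. Then `π` and the
   angles of the different values of the Kloosterman sums over the fields with `q_p` elements, for all
   `p`, are linearly independent over `ℚ`.
4. Let `(p_i, a_i)`, `i = 1, …, r`, be different pairs as in 2. Then the vectors of the normalised
   Kloosterman sums `S_m(a_i, 1; p_i) / p_i ^ (m / 2)` over the fields with `p_i ^ m` elements,
   `m = 1, 2, 3, …`, are equidistributed in `[-2, 2] ^ r` for the law of `(2 cos 2 π t_i)`, with
   independent uniform `t_i` in `[0, 1]`. So the Kloosterman sums for different primes and different
   arguments are asymptotically independent, without exceptions; in particular, all systems of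
   signs occur with the same frequency.

So there is no algebraic dependence between Kloosterman angles at all, for the same prime or for
different primes: they satisfy the analogue of the linear independence hypothesis (the ordinates of
the zeros of the L-functions `1 - S(a, 1; p) p ^ (-s) + p ^ (1 - 2 s)`, up to the sign of the sum). The
earlier library result `AnglesIndependent` is the case of one residue for each prime, which does not
need the relation of the different sums modulo the same prime. That the sums modulo `p` are different
is a theorem of Fisher. The joint distribution over the extensions was known for almost all couples of
arguments (Perret-Gentil, large sieve for Frobenius).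

The proof. Let `v` be a place of the algebraic numbers above `p`, and `u_a`, `w_a` the roots of
`X ^ 2 - S(a, 1; p) X + p`; as `S(a, 1; p)` is congruent to `-1` at `v`, one of them, `u_a`, is a unit at
`v`. The automorphisms over `ℚ(ζ_p)` permute `u_a`, `w_a` by a sign character `ε_a`. A
multiplicative relation between the `u_a / w_a` gives a linear relation between the characters `ε_a`
with the same coefficients. So they are zero if the characters are different. If `ε_a = ε_b`, then
`u_a / u_b` is a unit at `v` together with all its conjugates (as there is only one place of `ℚ(ζ_p)`
above `p`), hence a root of unity by Kronecker's theorem, which is congruent to one at `v`; so its order is a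
power of `p`, and as it has at most two conjugates over `ℚ(ζ_p)` it is one. Then the sums for `a`
and `b` are equal, and `a = b`. For different primes one uses that the numbers `u_a` are units outside
`p`. The last assertion follows by the theorem of Kronecker and Weyl.
-/

set_option autoImplicit false

namespace Pool.Agent.Results.MP_6ea630_nt.AllAngles

open Pool.Agent.H856.KA

/-- **The angles of all Kloosterman sums.** `Pairs`: the pairs of a prime `p` and a residue `a ≠ 0`
modulo `p`; `S1 p a = S(a, 1; p)`; `theta p a` its angle; `angles`: `π` and all these angles;
`valueAngles e`: `π` and the angles of the values of the Kloosterman sums over the fields with `p ^ e p`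
elements; `Equidistributed`: over the extensions of the prime fields. -/
theorem result :
    -- the theorem of Weil
    (∀ (p : Nat.Primes) (a : ZMod p), a ≠ 0 → S1 p a = 2 * Real.sqrt p * Real.cos (theta p a)) ∧
    -- all primes and all residues
    LinearIndependent ℚ angles ∧
    -- all finite fields
    (∀ e : ℕ → ℕ, (∀ p, 0 < e p) → LinearIndependent ℚ (valueAngles e)) ∧
    -- joint equidistribution over the extensions
    (∀ (r : ℕ) (x : Fin r → Pairs), Function.Injective x → Equidistributed x) := by
  refine ⟨fun p a ha => ?_, lin_prime, lin_all, equi⟩
  have h := congrArg Complex.re (klo_cos p a ha)
  rw [klo_re, Complex.ofReal_re] at h
  rw [← h, ← sum_eq]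

end Pool.Agent.Results.MP_6ea630_nt.AllAngles
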