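import Pool.Agent.H590.KS.Kl

/-!
# Every integer is separated from nearly all others by the signs of the Kloosterman sums to very small primes

Let `S(a, 1; p)` be the Kloosterman sum.  For a fixed integer `b` nothing is known about the signs of
`S(b, 1; p)`.  Say that a prime `p`, not dividing `a b`, separates the integers `a` and `b` if `S(a, 1; p)` and
`S(b, 1; p)` have opposite signs.  We prove, for EVERY integer `b ≠ 0`: in every interval of length `N` all but
`C N ^ (1/2 + 1/(2A) + ε)` integers `a` are separated from `b` by a prime `p ≤ (log N) ^ A` (a theorem of the type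
of Linnik's), and all moments of the least prime which separates `a` and `b`, truncated at any `Y ≤ N ^ θ`,
converge, uniformly in the interval, to the value of the probabilistic model (a theorem of the type of Erdős').
More generally, the same holds for an arbitrary prescribed sequence `σ p` of signs in the place of the signs of
`S(b, 1; p)`: so the vector of the signs of `S(a, 1; p)`, `p ≤ (log N) ^ A`, takes no value more than
`C N ^ (1/2 + 1/(2A) + ε)` times in an interval of length `N`.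
-/

set_option autoImplicit false

namespace Pool.Agent.Results.MP_6ea630_nt.SeparationBySigns

open Finset

/-- The Kloosterman sum `S(a, 1; p)`. -/
noncomputable def kloosterman (a : ℤ) (p : ℕ) : ℝ :=
  ∑ x ∈ Finset.Ico 1 p, Real.cos (2 * Real.pi *
    ((((a : ZMod p) * (x : ZMod p) + (x : ZMod p)⁻¹).val : ℕ) : ℝ) / (p : ℝ))

/-- `p` is a prime which does not divide `a`, and `σ p * S(a, 1; p) > η √p`. -/
def Hits (σ : ℕ → ℤ) (η : ℝ) (a : ℤ) (p : ℕ) : Prop :=
  p.Prime ∧ ¬ (p : ℤ) ∣ a ∧ η * Real.sqrt p < σ p * kloosterman a p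

/-- The prime `p` divides neither `a` nor `b`, and `S(a, 1; p)` and `S(b, 1; p)` have opposite signs. -/
def Separates (b a : ℤ) (p : ℕ) : Prop :=
  p.Prime ∧ ¬ (p : ℤ) ∣ a ∧ ¬ (p : ℤ) ∣ b ∧ kloosterman a p * kloosterman b p < 0

/-- The number of the integers `a` with `M < a ≤ M + N` such that `H a p` for no `p ≤ y`. -/
noncomputable def missed (H : ℤ → ℕ → Prop) (M : ℤ) (N : ℕ) (y : ℝ) : ℕ :=
  {a : ℤ | M < a ∧ a ≤ M + N ∧ ∀ p : ℕ, (p : ℝ) ≤ y → ¬ H a p}.ncard

/-- The least `p` with `H a p`, or `Y` if this is smaller. -/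
noncomputable def least (H : ℤ → ℕ → Prop) (Y : ℕ) (a : ℤ) : ℕ := sInf {n | n = Y ∨ H a n}

/-- The mean value of the `k`-th power of the least `p` with `H a p` (truncated at `Y`), over the integers
`a` with `M < a ≤ M + N`. -/
noncomputable def mean (H : ℤ → ℕ → Prop) (Y k : ℕ) (M : ℤ) (N : ℕ) : ℝ :=
  (∑ a ∈ Finset.Ioc M (M + N), (least H Y a : ℝ) ^ k) / N

open scoped Classical in
/-- The proportion of the residue classes `a` modulo `p` with `H a p`. -/
noncomputable def dens (H : ℤ → ℕ → Prop) (p : ℕ) : ℝ :=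
  (((Finset.range p).filter fun a : ℕ => H a p).card : ℝ) / p

/-- The `k`-th moment of the least `p` with `H a p` in the probabilistic model, in which the residue classes
of `a` modulo the different primes are independent and uniformly distributed. -/
noncomputable def model (H : ℤ → ℕ → Prop) (k : ℕ) : ℝ :=
  ∑' p : ℕ, if p.Prime then (p : ℝ) ^ k * (dens H p *
    ∏ q ∈ (Finset.range p).filter Nat.Prime, (1 - dens H q)) else 0

/-- The values of `σ` are `0`, `1` and `-1`. -/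
def Signs (σ : ℕ → ℤ) : Prop := ∀ p, σ p = 0 ∨ σ p = 1 ∨ σ p = -1

section
open Pool.Agent.H590.KS

theorem kl_eq (a : ℤ) (p : ℕ) : kloosterman a p = klz p (a : ZMod p) := rfl

/-- the classes -/
noncomputable def Om (σ : ℕ → ℤ) (η : ℝ) (p : ℕ) : Finset (ZMod p) := Sg (σ p) η p

theorem hit_iff (σ : ℕ → ℤ) (η : ℝ) (a : ℤ) (p : ℕ) : Hit (Om σ η) a p ↔ Hits σ η a p := by
  unfold Hit Hits Om
  refine and_congr_right fun hp => ?_
  rw [mem_Sg hp, kl_eq, Ne, ZMod.intCast_zmod_eq_zero_iff_dvd]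

theorem least_eq (σ : ℕ → ℤ) (η : ℝ) (Y : ℕ) (a : ℤ) : least (Hits σ η) Y a = first (Om σ η) Y a := by
  unfold least first
  congr 1
  ext n
  simp only [Set.mem_ofPred_eq, hit_iff]

theorem dens_eq (σ : ℕ → ℤ) (η : ℝ) {p : ℕ} (hp : p.Prime) : dens (Hits σ η) p = dl (Om σ η p) := by
  classical
  have : Fact p.Prime := ⟨hp⟩
  unfold dens dl
  congr 2
  refine card_nbij' (fun a => (a : ZMod p)) ZMod.val ?_ ?_ ?_ ?_
  · intro a ha
    rw [mem_coe, mem_filter] at ha
    have h1 := ((hit_iff σ η a p).2 ha.2).2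
    rw [Int.cast_natCast] at h1
    exact h1
  · intro v hv
    rw [mem_coe] at hv
    rw [mem_coe, mem_filter, mem_range]
    refine ⟨ZMod.val_lt v, (hit_iff σ η _ p).1 ⟨hp, ?_⟩⟩
    rw [Int.cast_natCast, ZMod.natCast_zmod_val]
    exact hv
  · intro a ha
    rw [mem_coe, mem_filter, mem_range] at ha
    exact ZMod.val_cast_of_lt ha.1
  · intro v _
    exact ZMod.natCast_zmod_val v

theorem model_eq (σ : ℕ → ℤ) (η : ℝ) (k : ℕ) : model (Hits σ η) k = mom (Om σ η) k := by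
  unfold model mom
  refine tsum_congr fun p => ?_
  by_cases hp : p.Prime
  · rw [if_pos hp, if_pos hp, dens_eq σ η hp]
    congr 2
    exact prod_congr rfl fun q hq => by rw [dens_eq σ η (mem_filter.1 hq).2]
  · rw [if_neg hp, if_neg hp]

theorem mean_eq (σ : ℕ → ℤ) (η : ℝ) (Y k : ℕ) (M : ℤ) (N : ℕ) : mean (Hits σ η) Y k M N =
    (∑ a ∈ Ioc M (M + N), (first (Om σ η) Y a : ℝ) ^ k) / N := by
  unfold mean
  congr 1
  exact sum_congr rfl fun a _ => by rw [least_eq]

theorem om_large {η : ℝ} (hη : 0 ≤ η) (hη1 : η < 1 / 4) : ∃ p₀ : ℕ, ∀ σ : ℕ → ℤ, Signs σ →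
    ∀ p : ℕ, p.Prime → p₀ ≤ p → σ p ≠ 0 → (1 / 4 - η) / 2 ≤ dl (Om σ η p) := by
  obtain ⟨p₀, h⟩ := dl_Sg hη hη1
  exact ⟨p₀, fun σ hσ p hp hp0 h0 => h p hp hp0 (σ p) ((hσ p).resolve_left h0)⟩

/-- part one for prescribed signs -/
theorem few_signs {A ε η : ℝ} (hA : 1 < A) (hε : 0 < ε) (hη : 0 ≤ η) (hη1 : η < 1 / 4) (κ : ℕ) :
    ∃ C : ℝ, ∀ N : ℕ, 1 ≤ N → ∀ (M : ℤ) (σ : ℕ → ℤ), Signs σ →
      ({p : ℕ | p.Prime ∧ (p : ℝ) ≤ Real.log N ^ A ∧ σ p = 0}.ncard : ℝ) ≤ κ * (1 + Real.log N) →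
      (missed (Hits σ η) M N (Real.log N ^ A) : ℝ) ≤ C * (N : ℝ) ^ (1 / 2 + 1 / (2 * A) + ε) := by
  classical
  obtain ⟨p₀, hp₀⟩ := om_large hη hη1
  obtain ⟨C, hC, h1⟩ := few hA hε (show 0 < (1 / 4 - η) / 2 by linarith) κ p₀
  refine ⟨C, fun N hN M σ hσ hZ => ?_⟩
  have hfin : {p : ℕ | p.Prime ∧ (p : ℝ) ≤ Real.log N ^ A ∧ σ p = 0}.Finite := by
    refine (Set.finite_Iic ⌊Real.log N ^ A⌋₊).subset ?_
    rintro p ⟨-, h2, -⟩
    exact Nat.le_floor h2
  rw [Set.ncard_eq_toFinset_card _ hfin] at hZ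
  have hset : {a : ℤ | M < a ∧ a ≤ M + N ∧ ∀ p : ℕ, (p : ℝ) ≤ Real.log N ^ A → ¬ Hits σ η a p}.Finite :=
    (Set.finite_Ioc M (M + N)).subset fun a ha => ⟨ha.1, ha.2.1⟩
  unfold missed
  rw [Set.ncard_eq_toFinset_card _ hset]
  apply h1 N hN M (Om σ η) hfin.toFinset hZ
  · intro p hp hp0 hpA hpZ
    apply hp₀ σ hσ p hp hp0
    intro h0
    apply hpZ
    rw [Set.Finite.mem_toFinset]
    exact ⟨hp, hpA, h0⟩
  · intro a ha
    rw [Set.Finite.mem_toFinset] at ha
    refine ⟨⟨ha.1, ha.2.1⟩, fun p hp hpA hmem => ha.2.2 p hpA ((hit_iff σ η a p).1 ⟨hp, hmem⟩)⟩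

/-- the signs opposite to those of `b` -/
noncomputable def opp (b : ℤ) (p : ℕ) : ℤ :=
  open Classical in if (p : ℤ) ∣ b then 0 else if kloosterman b p < 0 then 1 else -1

theorem opp_signs (b : ℤ) : Signs (opp b) := by
  intro p
  unfold opp
  split_ifs <;> simp

theorem opp_zero {b : ℤ} {p : ℕ} (h : opp b p = 0) : (p : ℤ) ∣ b := by
  unfold opp at h
  by_contra hcon
  rw [if_neg hcon] at h
  split_ifs at h <;> omega

theorem sep_eq (b : ℤ) : Separates b = Hits (opp b) 0 := by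
  funext a p
  apply propext
  unfold Separates Hits
  refine and_congr_right fun hp => and_congr_right fun ha => ?_
  have : Fact p.Prime := ⟨hp⟩
  have h0 : kloosterman b p ≠ 0 := by
    rw [kl_eq]
    exact klz_ne_zero _
  rw [zero_mul]
  unfold opp
  by_cases hb : (p : ℤ) ∣ b
  · rw [if_pos hb]
    simp [hb]
  · rw [if_neg hb]
    by_cases h1 : kloosterman b p < 0
    · rw [if_pos h1, Int.cast_one, one_mul]
      constructor
      · intro h
        by_contra hcon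
        have := mul_nonneg_of_nonpos_of_nonpos (not_lt.1 hcon) h1.le
        linarith [h.2]
      · intro h
        exact ⟨hb, mul_neg_of_pos_of_neg h h1⟩
    · rw [if_neg h1]
      have h2 : 0 < kloosterman b p := lt_of_le_of_ne (not_lt.1 h1) (Ne.symm h0)
      constructor
      · intro h
        by_contra hcon
        push_cast at hcon
        have h3 : 0 ≤ kloosterman a p := by linarith
        have := mul_nonneg h3 h2.le
        linarith [h.2]
      · intro h
        push_cast at h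
        have h3 : kloosterman a p < 0 := by linarith
        exact ⟨hb, mul_neg_of_neg_of_pos h3 h2⟩

theorem zero_sub {b : ℤ} (hb : b ≠ 0) : {p : ℕ | p.Prime ∧ opp b p = 0} ⊆ (b.natAbs.primeFactors : Set ℕ) := by
  rintro p ⟨hp, h⟩
  rw [mem_coe, Nat.mem_primeFactors]
  exact ⟨hp, Int.natCast_dvd.1 (opp_zero h), Int.natAbs_ne_zero.2 hb⟩

end

/-- **Separation by the signs of Kloosterman sums to very small primes.**

(1) Let `A > 1`, `ε > 0`, `0 ≤ η < 1/4` and `κ` be given.  There is `C` such that for every interval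
`(M, M + N]`, `N ≥ 1`:
(a) for every integer `b ≠ 0` with `|b| ≤ N ^ κ`, at most `C N ^ (1/2 + 1/(2A) + ε)` of the integers `a` of the
interval are not separated from `b` by a prime `p ≤ (log N) ^ A`;
(b) for every sequence `σ` of signs (with at most `κ (1 + log N)` zeros at the primes `p ≤ (log N) ^ A`), at most
`C N ^ (1/2 + 1/(2A) + ε)` of the integers `a` of the interval satisfy `σ p * S(a, 1; p) ≤ η √p` for all primes
`p ≤ (log N) ^ A` which do not divide `a`.

(2) Let `k ≥ 1`, `θ k < 1/2`, `0 ≤ η < 1/4` and `K` be given.  For every `ε > 0`, all `N ≥ N₀`,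
`Y₀ ≤ Y ≤ N ^ θ` and all `M`, the mean value, over the integers `a` with `M < a ≤ M + N`, of the `k`-th power of
the least prime which separates `a` from `b`, truncated at `Y`, differs by at most `ε` from the value of the
probabilistic model, for all `b ≠ 0` with at most `K` prime divisors; the same holds for the least prime
`p`, not dividing `a`, with `σ p * S(a, 1; p) > η √p`, for all sequences `σ` of signs with at most `K` zeros at
the primes.  The values of the models are bounded in terms of `k`, `η` and `K`. -/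
theorem result :
    (∀ A ε η : ℝ, 1 < A → 0 < ε → 0 ≤ η → η < 1 / 4 → ∀ κ : ℕ, ∃ C : ℝ, ∀ N : ℕ, 1 ≤ N → ∀ M : ℤ,
      (∀ b : ℤ, b ≠ 0 → |(b : ℝ)| ≤ (N : ℝ) ^ κ →
        (missed (Separates b) M N (Real.log N ^ A) : ℝ) ≤ C * (N : ℝ) ^ (1 / 2 + 1 / (2 * A) + ε)) ∧
      ∀ σ : ℕ → ℤ, Signs σ →
        ({p : ℕ | p.Prime ∧ (p : ℝ) ≤ Real.log N ^ A ∧ σ p = 0}.ncard : ℝ) ≤ κ * (1 + Real.log N) →
        (missed (Hits σ η) M N (Real.log N ^ A) : ℝ) ≤ C * (N : ℝ) ^ (1 / 2 + 1 / (2 * A) + ε)) ∧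
    ∀ (k : ℕ) (θ η : ℝ) (K : ℕ), 1 ≤ k → θ * k < 1 / 2 → 0 ≤ η → η < 1 / 4 →
      (∀ ε : ℝ, 0 < ε → ∃ N₀ Y₀ : ℕ, ∀ N Y : ℕ, N₀ ≤ N → Y₀ ≤ Y → (Y : ℝ) ≤ (N : ℝ) ^ θ → ∀ M : ℤ,
        (∀ b : ℤ, b ≠ 0 → b.natAbs.primeFactors.card ≤ K →
          |mean (Separates b) Y k M N - model (Separates b) k| ≤ ε) ∧
        ∀ σ : ℕ → ℤ, Signs σ → {p : ℕ | p.Prime ∧ σ p = 0}.encard ≤ K →
          |mean (Hits σ η) Y k M N - model (Hits σ η) k| ≤ ε) ∧
      ∃ C : ℝ, (∀ b : ℤ, b ≠ 0 → b.natAbs.primeFactors.card ≤ K → model (Separates b) k ≤ C) ∧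
        ∀ σ : ℕ → ℤ, Signs σ → {p : ℕ | p.Prime ∧ σ p = 0}.encard ≤ K →
          model (Hits σ η) k ≤ C := by
  classical
  refine ⟨fun A ε η hA hε hη hη1 κ => ?_, fun k θ η K hk hθ hη hη1 => ⟨fun ε hε => ?_, ?_⟩⟩
  · obtain ⟨C₁, h1⟩ := few_signs hA hε (le_refl 0) (by norm_num) (2 * κ)
    obtain ⟨C₂, h2⟩ := few_signs hA hε hη hη1 κ
    refine ⟨max C₁ C₂, fun N hN M => ⟨fun b hb hbN => ?_, fun σ hσ hZ => ?_⟩⟩
    · rw [sep_eq]
      have hNr : (1 : ℝ) ≤ N := by exact_mod_cast hN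
      have hL : 0 ≤ Real.log N := Real.log_nonneg hNr
      have hX : 0 ≤ (N : ℝ) ^ (1 / 2 + 1 / (2 * A) + ε) := by positivity
      refine (h1 N hN M (opp b) (opp_signs b) ?_).trans
        (mul_le_mul_of_nonneg_right (le_max_left _ _) hX)
      have h3 : {p : ℕ | p.Prime ∧ (p : ℝ) ≤ Real.log N ^ A ∧ opp b p = 0}.ncard ≤
          b.natAbs.primeFactors.card := by
        have h4 := Set.ncard_le_ncard (s := {p : ℕ | p.Prime ∧ (p : ℝ) ≤ Real.log N ^ A ∧ opp b p = 0})
          (t := (b.natAbs.primeFactors : Set ℕ))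
          (fun p hp => zero_sub hb ⟨hp.1, hp.2.2⟩) (Finset.finite_toSet _)
        rwa [Set.ncard_coe_finset] at h4
      have h4 := Pool.Agent.Y673.LG.omega_le (Int.natAbs_ne_zero.2 hb)
      have h5 : Real.log (b.natAbs : ℝ) ≤ κ * Real.log N := by
        rw [Nat.cast_natAbs, Int.cast_abs, ← Real.log_pow]
        exact Real.log_le_log (abs_pos.2 (Int.cast_ne_zero.2 hb)) hbN
      have h6 : ({p : ℕ | p.Prime ∧ (p : ℝ) ≤ Real.log N ^ A ∧ opp b p = 0}.ncard : ℝ) ≤
          b.natAbs.primeFactors.card := by exact_mod_cast h3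
      have h7 : (0 : ℝ) ≤ κ := Nat.cast_nonneg _
      push_cast
      nlinarith
    · have hX : 0 ≤ (N : ℝ) ^ (1 / 2 + 1 / (2 * A) + ε) := by positivity
      exact (h2 N hN M σ hσ hZ).trans (mul_le_mul_of_nonneg_right (le_max_right _ _) hX)
  · -- moments
    have key : ∀ η : ℝ, 0 ≤ η → η < 1 / 4 → ∃ N₀ Y₀ : ℕ, ∀ N Y : ℕ, N₀ ≤ N → Y₀ ≤ Y →
        (Y : ℝ) ≤ (N : ℝ) ^ θ → ∀ (M : ℤ) (σ : ℕ → ℤ), Signs σ →
        {p : ℕ | p.Prime ∧ σ p = 0}.encard ≤ K →
          |mean (Hits σ η) Y k M N - model (Hits σ η) k| ≤ ε := by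
      intro η hη hη1
      obtain ⟨p₀, hp₀⟩ := om_large hη hη1
      obtain ⟨N₀, Y₀, -, h1⟩ := Pool.Agent.H590.KS.moments (show 0 < (1 / 4 - η) / 2 by linarith)
        (by linarith) hk hθ K p₀ hε
      refine ⟨N₀, Y₀, fun N Y hN hY hYN M σ hσ hZ => ?_⟩
      have hfin : {p : ℕ | p.Prime ∧ σ p = 0}.Finite := Set.finite_of_encard_le_coe hZ
      rw [mean_eq, model_eq]
      apply h1 N Y hN hY hYN M (Om σ η) hfin.toFinset
      · rw [← Set.ncard_eq_toFinset_card _ hfin]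
        rw [← hfin.cast_ncard_eq] at hZ
        exact_mod_cast hZ
      · intro p hp hp0 hpZ
        apply hp₀ σ hσ p hp hp0
        intro h0
        apply hpZ
        rw [Set.Finite.mem_toFinset]
        exact ⟨hp, h0⟩
    obtain ⟨N₁, Y₁, h1⟩ := key 0 le_rfl (by norm_num)
    obtain ⟨N₂, Y₂, h2⟩ := key η hη hη1
    refine ⟨max N₁ N₂, max Y₁ Y₂, fun N Y hN hY hYN M => ⟨fun b hb hbK => ?_, fun σ hσ hZ => ?_⟩⟩
    · rw [sep_eq]
      apply h1 N Y ((le_max_left _ _).trans hN) ((le_max_left _ _).trans hY) hYN M _ (opp_signs b)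
      refine (Set.encard_le_encard (zero_sub hb)).trans ?_
      rw [Set.encard_coe_eq_coe_finsetCard]
      exact_mod_cast hbK
    · exact h2 N Y ((le_max_right _ _).trans hN) ((le_max_right _ _).trans hY) hYN M σ hσ hZ
  · -- the bound
    have key : ∀ η : ℝ, 0 ≤ η → η < 1 / 4 → ∃ C : ℝ, ∀ σ : ℕ → ℤ, Signs σ →
        {p : ℕ | p.Prime ∧ σ p = 0}.encard ≤ K → model (Hits σ η) k ≤ C := by
      intro η hη hη1
      obtain ⟨p₀, hp₀⟩ := om_large hη hη1
      obtain ⟨C, h1⟩ := Pool.Agent.H590.KS.mom_le (show 0 < (1 / 4 - η) / 2 by linarith)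
        (by linarith) hk K p₀
      refine ⟨C, fun σ hσ hZ => ?_⟩
      have hfin : {p : ℕ | p.Prime ∧ σ p = 0}.Finite := Set.finite_of_encard_le_coe hZ
      rw [model_eq]
      apply h1 (Om σ η) hfin.toFinset
      · rw [← Set.ncard_eq_toFinset_card _ hfin]
        rw [← hfin.cast_ncard_eq] at hZ
        exact_mod_cast hZ
      · intro p hp hp0 hpZ
        apply hp₀ σ hσ p hp hp0
        intro h0
        apply hpZ
        rw [Set.Finite.mem_toFinset]
        exact ⟨hp, h0⟩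
    obtain ⟨C₁, h1⟩ := key 0 le_rfl (by norm_num)
    obtain ⟨C₂, h2⟩ := key η hη hη1
    refine ⟨max C₁ C₂, fun b hb hbK => ?_, fun σ hσ hZ => (h2 σ hσ hZ).trans (le_max_right _ _)⟩
    rw [sep_eq]
    refine (h1 _ (opp_signs b) ?_).trans (le_max_left _ _)
    refine (Set.encard_le_encard (zero_sub hb)).trans ?_
    rw [Set.encard_coe_eq_coe_finsetCard]
    exact_mod_cast hbK

end Pool.Agent.Results.MP_6ea630_nt.SeparationBySigns
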